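import Pool.Agent.Run7.h390.TP.Loc

/-!
# Groups of matrices with bounded denominators

Owner helper390.
-/

set_option autoImplicit false

namespace Pool.Agent.Run7.h390.RA

open _root_.Run7.h909.GT
open Pool.Agent.Y110.FJ (ClosedE)
open Pool.Agent.Run7.h390.TP (loc_deg wcancel wcancel_le)

/-- units modulo an ideal are units modulo its powers -/
theorem unit_pow {R : Type} [CommRing R] (J : Ideal R) (h : R) (hu : IsUnit (Ideal.Quotient.mk J h))
    (k : ℕ) : ∃ u : R, Ideal.Quotient.mk (J ^ k) (h * u) = 1 := by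
  obtain ⟨v, hv⟩ := hu.exists_right_inv
  obtain ⟨b, rfl⟩ := Ideal.Quotient.mk_surjective v
  have h1 : 1 - h * b ∈ J := by
    rw [← Ideal.Quotient.eq_zero_iff_mem, map_sub, map_mul, map_one, hv, sub_self]
  have h2 := sub_dvd_pow_sub_pow 1 (1 - h * b) k
  rw [sub_sub_cancel, one_pow] at h2
  obtain ⟨c, hc⟩ := h2
  refine ⟨b * c, ?_⟩
  rw [← mul_assoc, ← hc, map_sub, map_one, sub_eq_self, Ideal.Quotient.eq_zero_iff_mem]
  exact Ideal.pow_mem_pow h1 k

/-- **matrices with bounded denominators over the field of fractions of a ring with a degree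
function** -/
theorem bd_mem {C : ∀ (G : Type) [Group G], Prop} (hC : ClosedE C)
    (hsol : ∀ (S : Type) [Group S], Group.IsSolvable S → C S) {R : Type} [CommRing R] [IsDomain R]
    {deg : R → WithBot ℤ} (hd : IsDeg deg) (h0 : ∀ x, x ≠ 0 → 0 ≤ deg x) {K : Type} [Field K]
    [Algebra R K] [IsFractionRing R K] (h : R) (hh : h ≠ 0) (J : Ideal R)
    (hu : IsUnit (Ideal.Quotient.mk J h)) (hJ : C (GL (Fin 2) (R ⧸ J)))
    (hn : ∀ n : ℕ, ∃ k : ℕ, ∀ x ∈ J ^ k, deg x ≤ n → x = 0) {Q : Type} [Group Q]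
    (ρ : Q →* GL (Fin 2) K) (hρ : Function.Injective ρ)
    (hb : ∀ (q : Q) (i j : Fin 2), ∃ a : R, algebraMap R K h * ρ q i j = algebraMap R K a) :
    C Q := by
  have hinj : Function.Injective (algebraMap R K) := IsFractionRing.injective R K
  obtain ⟨deg', hd', hdd⟩ := loc_deg (A := K) (nonZeroDivisors R) le_rfl hd
  choose a ha using hb
  have hhK : algebraMap R K h ≠ 0 := fun e => hh (hinj (by rw [e, map_zero]))
  have hone : ∀ i j, a 1 i j = h * (1 : Matrix (Fin 2) (Fin 2) R) i j := by
    intro i j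
    apply hinj
    rw [← ha, map_one]
    show _ * ((1 : GL (Fin 2) K) : Matrix (Fin 2) (Fin 2) K) i j = _
    rw [Units.val_one, Matrix.one_apply, Matrix.one_apply]
    split_ifs
    · rw [mul_one, mul_one]
    · rw [mul_zero, mul_zero, map_zero]
  have hmul : ∀ q q' i j, h * a (q * q') i j = ∑ l, a q i l * a q' l j := by
    intro q q' i j
    apply hinj
    rw [map_mul, ← ha, map_sum, map_mul]
    have h1 : (ρ q * ρ q' : GL (Fin 2) K) i j = ∑ l, ρ q i l * ρ q' l j := by
      show ((ρ q * ρ q' : GL (Fin 2) K) : Matrix (Fin 2) (Fin 2) K) i j = _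
      rw [Units.val_mul, Matrix.mul_apply]
    rw [h1, Finset.mul_sum, Finset.mul_sum]
    refine Finset.sum_congr rfl fun l _ => ?_
    rw [map_mul, ← ha, ← ha]
    ring
  refine gl2_rep hC hd' ρ fun n => ?_
  obtain ⟨e, he⟩ := WithBot.ne_bot_iff_exists.1 (fun e => hh ((hd.bot h).1 e))
  have he0 : 0 ≤ e := by
    have := h0 h hh
    rw [← he] at this
    exact_mod_cast this
  obtain ⟨k, hk⟩ := hn (n + 2 * e).toNat
  obtain ⟨u, hu'⟩ := unit_pow J h hu (k + 1)
  let f0 : Q →* Matrix (Fin 2) (Fin 2) (R ⧸ J ^ (k + 1)) :=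
    { toFun := fun q => Matrix.of fun i j => Ideal.Quotient.mk (J ^ (k + 1)) (u * a q i j)
      map_one' := by
        ext i j
        rw [Matrix.of_apply, hone, ← mul_assoc, mul_comm u h, map_mul, hu', one_mul,
          Matrix.one_apply, Matrix.one_apply]
        split_ifs
        · rw [map_one]
        · rw [map_zero]
      map_mul' := by
        intro q q'
        ext i j
        rw [Matrix.mul_apply, Matrix.of_apply]
        have h1 : Ideal.Quotient.mk (J ^ (k + 1)) (u * a (q * q') i j) =
            Ideal.Quotient.mk (J ^ (k + 1)) (u * u * (h * a (q * q') i j)) := by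
          have h2 : u * u * (h * a (q * q') i j) = (h * u) * (u * a (q * q') i j) := by ring
          rw [h2, map_mul _ (h * u), hu', one_mul]
        rw [h1, hmul, Finset.mul_sum, map_sum]
        refine Finset.sum_congr rfl fun l _ => ?_
        rw [Matrix.of_apply, Matrix.of_apply, ← map_mul]
        congr 1
        ring }
  refine ⟨_, _, f0.toHomUnits, pow_mem hC hsol J hJ k, fun g hg hfg => ?_⟩
  have hent : ∀ i j, a g i j = h * (1 : Matrix (Fin 2) (Fin 2) R) i j := by
    -- a nonzero entry of the inverse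
    obtain ⟨r, s, hrs⟩ : ∃ r s, ρ g⁻¹ r s ≠ 0 := by
      by_contra hcon
      push Not at hcon
      have h2 : ((ρ g⁻¹ : GL (Fin 2) K) : Matrix (Fin 2) (Fin 2) K) = 0 := by
        ext i j
        exact hcon i j
      exact (ρ g⁻¹).ne_zero h2
    have h3 : a g⁻¹ r s ≠ 0 := by
      intro h4
      have h5 := ha g⁻¹ r s
      rw [h4, map_zero] at h5
      rcases mul_eq_zero.1 h5 with h6 | h6
      · exact hhK h6
      · exact hrs h6
    obtain ⟨b, hb⟩ := WithBot.ne_bot_iff_exists.1 (fun e => hrs ((hd'.bot _).1 e))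
    have h4 : 0 ≤ e + b := by
      have h5 := h0 _ h3
      rw [← hdd, ← ha, hd'.mul, hdd, ← he, ← hb] at h5
      exact_mod_cast h5
    intro i j
    rw [← sub_eq_zero]
    refine hk _ (Ideal.pow_le_pow_right (Nat.le_succ k) ?_) ?_
    · rw [← Ideal.Quotient.eq_zero_iff_mem]
      have h5 : Ideal.Quotient.mk (J ^ (k + 1)) (u * a g i j) =
          (1 : Matrix (Fin 2) (Fin 2) (R ⧸ J ^ (k + 1))) i j := by
        have h6 := congrArg (fun v : GL (Fin 2) (R ⧸ J ^ (k + 1)) =>
          (v : Matrix (Fin 2) (Fin 2) (R ⧸ J ^ (k + 1))) i j) hfg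
        exact h6
      have h6 : Ideal.Quotient.mk (J ^ (k + 1)) (a g i j) =
          Ideal.Quotient.mk (J ^ (k + 1)) h * Ideal.Quotient.mk (J ^ (k + 1)) (u * a g i j) := by
        rw [← map_mul, ← mul_assoc, map_mul _ (h * u), hu', one_mul]
      rw [map_sub, h6, h5, map_mul, Matrix.one_apply, Matrix.one_apply]
      split_ifs
      · rw [map_one, sub_self]
      · rw [map_zero, sub_self]
    · refine (hd.sub _ _).trans (max_le ?_ ?_)
      · rw [← hdd, ← ha, hd'.mul, hdd, ← he]
        have h5 := hg i j r s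
        rw [← hb] at h5
        rcases eq_or_ne (deg' (ρ g i j)) ⊥ with h6 | h6
        · rw [h6, WithBot.add_bot]
          exact bot_le
        · obtain ⟨c, hc⟩ := WithBot.ne_bot_iff_exists.1 h6
          rw [← hc] at h5 ⊢
          have h7 : c + b ≤ n := by exact_mod_cast h5
          have h8 : e + c ≤ ((n + 2 * e).toNat : ℤ) := by omega
          exact_mod_cast h8
      · rw [hd.mul, ← he, Matrix.one_apply]
        split_ifs
        · rw [hd.one, add_zero]
          have h8 : e ≤ ((n + 2 * e).toNat : ℤ) := by omega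
          exact_mod_cast h8
        · rw [(hd.bot 0).2 rfl, WithBot.add_bot]
          exact bot_le
  apply hρ
  rw [map_one]
  apply Units.ext
  ext i j
  apply mul_left_cancel₀ hhK
  rw [Units.val_one]
  refine (ha g i j).trans ?_
  rw [hent, map_mul, Matrix.one_apply, Matrix.one_apply]
  split_ifs
  · rw [map_one]
  · rw [map_zero]

end Pool.Agent.Run7.h390.RA
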