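import Pool.Agent.Run7.h31.PA.Fin
import Pool.Agent.Run7.h390.RA.Bd

/-!
# Automorphisms of `R[y, z]` over a domain `R`

Owner helper390.
-/

set_option autoImplicit false

namespace Pool.Agent.Run7.h390.RA

open MvPolynomial
open Pool.Agent.H922R2
open _root_.Run7.h31.PA (C_fix lin linHom lin_forms Rt ab_ker C_solv tri_solv TT act noinv tree_GA
  card_path fixA fixE descend rt_adjoin bc bc_X bc_inj bc0_mp mp mp_C mp_X)
open Pool.Agent.Y110.FJ (ClosedE)
open Pool.Agent.N509.TX (AcylF of_fg)
open Pool.Agent.R941.FJ (C_equiv C_le)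

section base

variable {R : Type} [CommRing R]

/-- the automorphisms of `R[y, z]` over `R` -/
abbrev GR (R : Type) [CommRing R] := MvPolynomial (Fin 2) R ≃ₐ[R] MvPolynomial (Fin 2) R

theorem gr_ext {φ ψ : GR R} (h : ∀ i, φ (X i) = ψ (X i)) : φ = ψ := by
  apply AlgEquiv.coe_toAlgHom_injective
  apply MvPolynomial.algHom_ext
  intro i
  exact h i

theorem gr_aeval (θ : GR R) (p : MvPolynomial (Fin 2) R) : θ p = aeval (fun i => θ (X i)) p := by
  have : θ.toAlgHom = aeval (fun i => θ (X i)) := by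
    apply MvPolynomial.algHom_ext
    intro i; simp
  exact DFunLike.congr_fun this p

variable {K : Type} [Field K] [Algebra R K]

/-- base change of polynomials -/
noncomputable def mr (R K : Type) [CommRing R] [Field K] [Algebra R K] :
    MvPolynomial (Fin 2) R →+* MvPolynomial (Fin 2) K := MvPolynomial.map (algebraMap R K)

theorem mr_C (a : R) : mr R K (C a) = C (algebraMap R K a) := map_C _ _

theorem mr_X (i : Fin 2) : mr R K (X i) = X i := map_X _ _

theorem mr_coeff (p : MvPolynomial (Fin 2) R) (t : Fin 2 →₀ ℕ) :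
    coeff t (mr R K p) = algebraMap R K (coeff t p) := coeff_map _ _ _

theorem aeval_mr (F : Fin 2 → MvPolynomial (Fin 2) R) (p : MvPolynomial (Fin 2) R) :
    aeval (fun i => mr R K (F i)) (mr R K p) = mr R K (aeval F p) := by
  induction p using MvPolynomial.induction_on with
  | C a => rw [mr_C, aeval_C, aeval_C, algebraMap_eq, algebraMap_eq, mr_C]
  | add p q hp hq => rw [map_add, map_add, map_add, map_add, hp, hq]
  | mul_X p i hp => rw [map_mul, map_mul, map_mul, map_mul, hp, mr_X, aeval_X, aeval_X]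

theorem vec_mr (f g : MvPolynomial (Fin 2) R) :
    (![mr R K f, mr R K g] : Fin 2 → MvPolynomial (Fin 2) K) = fun i => mr R K (![f, g] i) := by
  funext i
  fin_cases i <;> rfl

theorem vec_gr (θ : GR R) : (![θ (X 0), θ (X 1)] : Fin 2 → MvPolynomial (Fin 2) R) =
    fun i => θ (X i) := by
  funext i
  fin_cases i <;> rfl

/-- base change of automorphisms -/
noncomputable def br0 (K : Type) [Field K] [Algebra R K] (θ : GR R) : GA K :=
  mkGA (mr R K (θ (X 0))) (mr R K (θ (X 1))) (mr R K (θ.symm (X 0))) (mr R K (θ.symm (X 1)))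
    (by rw [vec_mr, aeval_mr, vec_gr, ← gr_aeval, AlgEquiv.apply_symm_apply, mr_X])
    (by rw [vec_mr, aeval_mr, vec_gr, ← gr_aeval, AlgEquiv.apply_symm_apply, mr_X])
    (by rw [vec_mr, aeval_mr, vec_gr θ.symm, ← gr_aeval, AlgEquiv.symm_apply_apply, mr_X])
    (by rw [vec_mr, aeval_mr, vec_gr θ.symm, ← gr_aeval, AlgEquiv.symm_apply_apply, mr_X])

theorem br0_X (θ : GR R) (i : Fin 2) : br0 K θ (X i) = mr R K (θ (X i)) := by
  fin_cases i
  · exact mkGA_X0 _ _ _ _ _ _ _ _
  · exact mkGA_X1 _ _ _ _ _ _ _ _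

theorem br0_mr (θ : GR R) (p : MvPolynomial (Fin 2) R) : br0 K θ (mr R K p) = mr R K (θ p) := by
  rw [ga_aeval, gr_aeval θ p, ← aeval_mr]
  congr 2
  funext i
  exact br0_X θ i

/-- base change as a homomorphism -/
noncomputable def br (R K : Type) [CommRing R] [Field K] [Algebra R K] : GR R →* GA K where
  toFun := br0 K
  map_one' := by
    refine ga_ext ?_ ?_
    · rw [br0_X]; exact mr_X 0
    · rw [br0_X]; exact mr_X 1
  map_mul' a b := by
    refine ga_ext ?_ ?_
    · rw [br0_X, AlgEquiv.mul_apply, AlgEquiv.mul_apply, br0_X, br0_mr]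
    · rw [br0_X, AlgEquiv.mul_apply, AlgEquiv.mul_apply, br0_X, br0_mr]

theorem br_X (θ : GR R) (i : Fin 2) : br R K θ (X i) = mr R K (θ (X i)) := br0_X θ i

theorem br_mr (θ : GR R) (p : MvPolynomial (Fin 2) R) : br R K θ (mr R K p) = mr R K (θ p) :=
  br0_mr θ p

theorem br_inj (hinj : Function.Injective (algebraMap R K)) : Function.Injective (br R K) := by
  have hm : Function.Injective (mr R K) := MvPolynomial.map_injective _ hinj
  intro a b h
  refine gr_ext fun i => hm ?_
  rw [← br_X, ← br_X, h]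

/-- clearing denominators -/
theorem clear [IsDomain R] [IsFractionRing R K] (p : MvPolynomial (Fin 2) K) :
    ∃ (d : R) (q : MvPolynomial (Fin 2) R), d ≠ 0 ∧ mr R K q = C (algebraMap R K d) * p := by
  induction p using MvPolynomial.induction_on with
  | C a =>
    obtain ⟨x, y, hy, rfl⟩ := IsFractionRing.div_surjective (A := R) a
    have hy0 : y ≠ 0 := nonZeroDivisors.ne_zero hy
    have hyK : algebraMap R K y ≠ 0 := fun e => hy0 (IsFractionRing.injective R K (by rw [e, map_zero]))
    refine ⟨y, C x, hy0, ?_⟩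
    rw [mr_C, ← C_mul]
    congr 1
    field_simp
  | add p q hp hq =>
    obtain ⟨d, p', hd, hp'⟩ := hp
    obtain ⟨e, q', he, hq'⟩ := hq
    refine ⟨d * e, C e * p' + C d * q', mul_ne_zero hd he, ?_⟩
    rw [map_add, map_mul, map_mul, hp', hq', mr_C, mr_C, map_mul, C_mul]
    ring
  | mul_X p i hp =>
    obtain ⟨d, p', hd, hp'⟩ := hp
    refine ⟨d, p' * X i, hd, ?_⟩
    rw [map_mul, hp', mr_X, mul_assoc]

/-- **bounded denominators** -/
theorem denom [IsDomain R] [IsFractionRing R K] (W : GA K) : ∃ D : R, D ≠ 0 ∧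
    ∀ (φ : GR R) (l : Fin 2 → Fin 2 → K) (c : Fin 2 → K),
      (∀ i, br R K φ (W (X i)) = C (l 0 i) * W (X 0) + C (l 1 i) * W (X 1) + C (c i)) →
      ∀ j i, ∃ a : R, algebraMap R K D * l j i = algebraMap R K a := by
  have hinj : Function.Injective (algebraMap R K) := IsFractionRing.injective R K
  obtain ⟨d0, q0, hd0, hq0⟩ := clear (R := R) (W (X 0))
  obtain ⟨d1, q1, hd1, hq1⟩ := clear (R := R) (W (X 1))
  obtain ⟨d, hd⟩ : ∃ d, d = d0 * d1 := ⟨_, rfl⟩
  have hd' : d ≠ 0 := by rw [hd]; exact mul_ne_zero hd0 hd1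
  have hdK : algebraMap R K d ≠ 0 := fun e => hd' (hinj (by rw [e, map_zero]))
  obtain ⟨v, hv⟩ : ∃ v : Fin 2 → MvPolynomial (Fin 2) R, ∀ i,
      mr R K (v i) = C (algebraMap R K d) * W (X i) := by
    refine ⟨![C d1 * q0, C d0 * q1], fun i => ?_⟩
    fin_cases i
    · show mr R K (C d1 * q0) = C (algebraMap R K d) * W (X 0)
      rw [map_mul, hq0, mr_C, hd, map_mul, C_mul]
      ring
    · show mr R K (C d0 * q1) = C (algebraMap R K d) * W (X 1)
      rw [map_mul, hq1, mr_C, hd, map_mul, C_mul]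
      ring
  -- a nonzero minor
  obtain ⟨m, m', hm, hm', hD⟩ : ∃ m m' : Fin 2 →₀ ℕ, m ≠ 0 ∧ m' ≠ 0 ∧
      coeff m (v 0) * coeff m' (v 1) - coeff m' (v 0) * coeff m (v 1) ≠ 0 := by
    by_contra hcon
    push Not at hcon
    have hWinv : ∀ p, W.symm (W p) = p := fun p => W.symm_apply_apply p
    have hWC : ∀ e : K, W.symm (C e) = C e := fun e => W.symm.commutes e
    by_cases hz : ∀ m : Fin 2 →₀ ℕ, m ≠ 0 → coeff m (v 0) = 0
    · have h1 : v 0 = C (coeff 0 (v 0)) := by
        ext m
        rw [coeff_C]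
        split_ifs with h
        · rw [← h]
        · exact hz m (Ne.symm h)
      have h2 := hv 0
      rw [h1, mr_C] at h2
      have h3 := congrArg W.symm h2
      rw [map_mul, hWC, hWC, hWinv] at h3
      have h4 := congrArg (coeff (Finsupp.single 0 1)) h3
      rw [coeff_C_mul, coeff_C, if_neg (by
        intro h
        have := congrArg (fun f => f 0) h
        simp at this), coeff_X, if_pos rfl, mul_one] at h4
      exact hdK h4.symm
    · push Not at hz
      obtain ⟨m0, hm0, hm0'⟩ := hz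
      have h1 : C (coeff m0 (v 0)) * v 1 - C (coeff m0 (v 1)) * v 0 =
          C (coeff 0 (C (coeff m0 (v 0)) * v 1 - C (coeff m0 (v 1)) * v 0)) := by
        ext m
        rw [coeff_C]
        split_ifs with h
        · rw [← h]
        · rw [coeff_sub, coeff_C_mul, coeff_C_mul]
          have h5 := hcon m0 m hm0 (Ne.symm h)
          rw [← h5]
          ring
      obtain ⟨e, he⟩ : ∃ e, e = coeff 0 (C (coeff m0 (v 0)) * v 1 - C (coeff m0 (v 1)) * v 0) :=
        ⟨_, rfl⟩
      rw [← he] at h1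
      have h2 := congrArg (mr R K) h1
      rw [map_sub, map_mul, map_mul, hv, hv, mr_C, mr_C, mr_C] at h2
      have h3 := congrArg W.symm h2
      rw [map_sub, map_mul, map_mul, map_mul, map_mul, hWC, hWC, hWC, hWC, hWinv, hWinv] at h3
      have h4 := congrArg (coeff (Finsupp.single 1 1)) h3
      have hne : (Finsupp.single (0 : Fin 2) 1 : Fin 2 →₀ ℕ) ≠ Finsupp.single 1 1 := by
        intro h
        have := congrArg (fun f => f 0) h
        simp at this
      rw [coeff_sub, coeff_C_mul, coeff_C_mul, coeff_C_mul, coeff_C_mul, coeff_C, if_neg (by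
        intro h
        have := congrArg (fun f => f 1) h
        simp at this), coeff_X, if_pos rfl, coeff_X, if_neg hne, mul_zero, mul_zero, sub_zero,
        mul_one] at h4
      rcases mul_eq_zero.1 h4 with h5 | h5
      · exact hm0' (hinj (by rw [h5, map_zero]))
      · exact hdK h5
  refine ⟨_, hD, fun φ l c hl => ?_⟩
  have key : ∀ i (t : Fin 2 →₀ ℕ), t ≠ 0 → algebraMap R K (coeff t (φ (v i))) =
      l 0 i * algebraMap R K (coeff t (v 0)) + l 1 i * algebraMap R K (coeff t (v 1)) := by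
    intro i t ht
    have h1 : mr R K (φ (v i)) = C (l 0 i) * mr R K (v 0) + C (l 1 i) * mr R K (v 1) +
        C (algebraMap R K d * c i) := by
      rw [← br_mr, hv, hv, hv, map_mul, hl]
      have h2 : br R K φ (C (algebraMap R K d)) = C (algebraMap R K d) := (br R K φ).commutes _
      rw [h2, C_mul]
      ring
    have h2 := congrArg (coeff t) h1
    rwa [mr_coeff, coeff_add, coeff_add, coeff_C_mul, coeff_C_mul, mr_coeff, mr_coeff, coeff_C,
      if_neg (Ne.symm ht), add_zero] at h2
  intro j i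
  have e1 := key i m hm
  have e2 := key i m' hm'
  fin_cases j
  · refine ⟨coeff m (φ (v i)) * coeff m' (v 1) - coeff m' (φ (v i)) * coeff m (v 1), ?_⟩
    show algebraMap R K _ * l 0 i = _
    rw [map_sub, map_sub, map_mul, map_mul, map_mul, map_mul, e1, e2]
    ring
  · refine ⟨coeff m (v 0) * coeff m' (φ (v i)) - coeff m' (v 0) * coeff m (φ (v i)), ?_⟩
    show algebraMap R K _ * l 1 i = _
    rw [map_sub, map_sub, map_mul, map_mul, map_mul, map_mul, e1, e2]
    ring

end base

end Pool.Agent.Run7.h390.RA
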