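import Pool.Agent.Run7.h390.RA.Main

/-!
# Polynomial rings and affine rings with one place at infinity

Owner helper390.
-/

set_option autoImplicit false

namespace Pool.Agent.Run7.h390.RA

open MvPolynomial
open _root_.Run7.h909.GT (IsDeg)
open Pool.Agent.Y110.FJ (ClosedE)
open Pool.Agent.N509.TX (AcylF of_fg)
open Pool.Agent.Run7.h390.TP (td td_isDeg td_ne td_zero)

variable {C : ∀ (G : Type) [Group G], Prop}

theorem den_of (hC : ClosedE C) (hsol : ∀ (S : Type) [Group S], Group.IsSolvable S → C S)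
    {R : Type} (K : Type) [CommRing R] [IsDomain R] [Field K] [Algebra R K] [IsFractionRing R K]
    {deg : R → WithBot ℤ} (hd : IsDeg deg) (h0 : ∀ x, x ≠ 0 → 0 ≤ deg x)
    (hJ : ∀ h : R, h ≠ 0 → ∃ J : Ideal R, IsUnit (Ideal.Quotient.mk J h) ∧
      C (GL (Fin 2) (R ⧸ J)) ∧ ∀ n : ℕ, ∃ k : ℕ, ∀ x ∈ J ^ k, deg x ≤ n → x = 0) : Den C R K := by
  intro h hh Q _ ρ hρ hb
  obtain ⟨J, h1, h2, h3⟩ := hJ h hh
  exact bd_mem hC hsol hd h0 h hh J h1 h2 h3 ρ hρ hb

section poly

variable {σ k : Type} [Field k]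

/-- translation -/
noncomputable def tau (ξ : σ → k) : MvPolynomial σ k →ₐ[k] MvPolynomial σ k :=
  aeval fun i => X i + MvPolynomial.C (ξ i)

theorem tau_tau (ξ : σ → k) (p : MvPolynomial σ k) : tau (fun i => - ξ i) (tau ξ p) = p := by
  have h1 : (tau fun i => - ξ i).comp (tau ξ) = AlgHom.id k _ := by
    apply MvPolynomial.algHom_ext
    intro i
    simp [tau]
  exact DFunLike.congr_fun h1 p

theorem tau_inj (ξ : σ → k) : Function.Injective (tau ξ) := fun p q h => by
  rw [← tau_tau ξ p, h, tau_tau]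

theorem tau_const (ξ : σ → k) (p : MvPolynomial σ k) : constantCoeff (tau ξ p) = eval ξ p := by
  have h1 : (constantCoeff : MvPolynomial σ k →+* k).comp (tau ξ : MvPolynomial σ k →+* _) =
      eval ξ := by
    apply MvPolynomial.ringHom_ext
    · intro r
      simp [tau]
    · intro i
      simp [tau]
  exact congrArg (fun f => f p) h1

theorem tau_degree (ξ : σ → k) (p : MvPolynomial σ k) :
    (tau ξ p).totalDegree ≤ p.totalDegree := by
  classical
  have h1 : tau ξ p = ∑ m ∈ p.support, tau ξ (monomial m (coeff m p)) := by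
    conv_lhs => rw [as_sum p, map_sum]
  rw [h1]
  refine totalDegree_finsetSum_le fun m hm => ?_
  refine le_trans ?_ (le_totalDegree hm)
  unfold tau
  rw [aeval_monomial]
  refine (totalDegree_mul _ _).trans ?_
  have h2 : (algebraMap k (MvPolynomial σ k) (coeff m p)).totalDegree = 0 := totalDegree_C _
  rw [h2, zero_add]
  refine (totalDegree_finsetProd _ _).trans ?_
  refine Finset.sum_le_sum fun i _ => ?_
  refine (totalDegree_pow _ _).trans ?_
  have h3 : (X i + MvPolynomial.C (ξ i) : MvPolynomial σ k).totalDegree ≤ 1 := by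
    refine (totalDegree_add _ _).trans (max_le ?_ ?_)
    · rw [totalDegree_X]
    · rw [totalDegree_C]
      exact Nat.zero_le 1
  calc m i * (X i + MvPolynomial.C (ξ i) : MvPolynomial σ k).totalDegree ≤ m i * 1 :=
        Nat.mul_le_mul_left _ h3
    _ = m i := mul_one _

theorem poly_den (hC : ClosedE C) (hsol : ∀ (S : Type) [Group S], Group.IsSolvable S → C S)
    [Infinite k] (hk : C (GL (Fin 2) k)) (K : Type) [Field K] [Algebra (MvPolynomial σ k) K]
    [IsFractionRing (MvPolynomial σ k) K] : Den C (MvPolynomial σ k) K := by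
  refine den_of hC hsol K (td_isDeg (σ := σ) (K := k)) ?_ ?_
  · intro x hx
    rw [td_ne hx]
    exact_mod_cast Nat.zero_le _
  · intro h hh
    obtain ⟨ξ, hξ⟩ : ∃ ξ : σ → k, eval ξ h ≠ 0 := by
      by_contra hcon
      push Not at hcon
      exact hh (MvPolynomial.funext fun x => by rw [hcon, map_zero])
    obtain ⟨φ, hφ⟩ : ∃ φ : MvPolynomial σ k →+* k,
        φ = (constantCoeff : MvPolynomial σ k →+* k).comp
          (tau ξ : MvPolynomial σ k →+* MvPolynomial σ k) := ⟨_, rfl⟩
    have hφ' : ∀ p, φ p = constantCoeff (tau ξ p) := fun p => by rw [hφ]; rfl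
    refine ⟨RingHom.ker φ, ?_, ?_, fun n => ⟨n + 1, fun x hx hn => ?_⟩⟩
    · refine IsUnit.of_mul_eq_one (Ideal.Quotient.mk _ (MvPolynomial.C (eval ξ h)⁻¹)) ?_
      rw [← map_mul, ← map_one (Ideal.Quotient.mk (RingHom.ker φ)), Ideal.Quotient.eq,
        RingHom.mem_ker, hφ', tau_const, map_sub, map_mul, map_one, eval_C, mul_inv_cancel₀ hξ,
        sub_self]
    · exact hC.base.of_injective _ _ (Matrix.GeneralLinearGroup.map (RingHom.kerLift φ))
        (_root_.Run7.h909.GT.map_inj _ (RingHom.kerLift_injective φ)) hk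
    · have h1 : tau ξ x ∈ idealOfVars σ k ^ (n + 1) := by
        have h2 : RingHom.ker φ ≤ (idealOfVars σ k).comap (tau ξ : MvPolynomial σ k →+* _) := by
          intro p hp
          rw [RingHom.mem_ker, hφ'] at hp
          show tau ξ p ∈ idealOfVars σ k
          have h3 := mem_pow_idealOfVars_iff' (σ := σ) (R := k) 1 (tau ξ p)
          rw [pow_one] at h3
          rw [h3]
          intro m hm
          have h4 : m = 0 := by
            have h5 : Finsupp.degree m = 0 := by omega
            exact (Finsupp.degree_eq_zero_iff m).1 h5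
          rw [h4]
          exact hp
        have h3 := Ideal.pow_right_mono h2 (n + 1) hx
        exact Ideal.le_comap_pow _ _ h3
      rw [mem_pow_idealOfVars_iff] at h1
      by_contra hx0
      have h2 : tau ξ x ≠ 0 := fun e => hx0 (tau_inj ξ (by rw [e, map_zero]))
      obtain ⟨m, hm⟩ := Finset.nonempty_iff_ne_empty.2 (fun e => h2 (support_eq_empty.1 e))
      have h3 := h1 m hm
      have h4 := le_totalDegree hm
      have h5 := tau_degree ξ x
      rw [td_ne hx0] at hn
      have h6 : x.totalDegree ≤ n := by exact_mod_cast hn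
      have h7 : Finsupp.degree m = m.sum fun _ e => e := rfl
      omega

end poly

section aff

/-- Krull's theorem and finite dimensional spaces -/
theorem sep (k : Type) {A : Type} [Field k] [CommRing A] [IsDomain A] [IsNoetherianRing A]
    [Algebra k A] (V : Submodule k A) [FiniteDimensional k V] (J : Ideal A) (hJ : J ≠ ⊤) :
    ∃ m : ℕ, ∀ x ∈ J ^ m, x ∈ V → x = 0 := by
  obtain ⟨F, hF⟩ : ∃ F : ℕ →o (Submodule k V)ᵒᵈ, ∀ m, F m = OrderDual.toDual
      (((J ^ m).restrictScalars k).comap V.subtype) :=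
    ⟨⟨fun m => OrderDual.toDual (((J ^ m).restrictScalars k).comap V.subtype), fun a b hab => by
      show ((J ^ b).restrictScalars k).comap V.subtype ≤
        ((J ^ a).restrictScalars k).comap V.subtype
      intro x hx
      exact Ideal.pow_le_pow_right hab hx⟩, fun m => rfl⟩
  obtain ⟨m, hm⟩ := IsArtinian.monotone_stabilizes F
  refine ⟨m, fun x hx hxV => ?_⟩
  have h1 : ∀ l, x ∈ J ^ l := by
    intro l
    by_cases hl : m ≤ l
    · have h2 := hm l hl
      rw [hF, hF] at h2
      have h3 : (⟨x, hxV⟩ : V) ∈ ((J ^ m).restrictScalars k).comap V.subtype := hx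
      have h4 : ((J ^ m).restrictScalars k).comap V.subtype =
        ((J ^ l).restrictScalars k).comap V.subtype := congrArg OrderDual.ofDual h2
      rw [h4] at h3
      exact h3
    · exact Ideal.pow_le_pow_right (not_le.1 hl).le hx
  have h2 : x ∈ (⨅ i : ℕ, J ^ i) := by
    rw [Ideal.mem_iInf]
    exact h1
  rw [Ideal.iInf_pow_eq_bot_of_isDomain J hJ, Ideal.mem_bot] at h2
  exact h2

theorem aff_den (hC : ClosedE C) (hsol : ∀ (S : Type) [Group S], Group.IsSolvable S → C S)
    (hQ : ∀ m : ℕ, C (GL (Fin m) ℚ)) (k : Type) {R : Type} [Field k] [Algebra ℚ k]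
    [Algebra.IsAlgebraic ℚ k] [CommRing R] [IsDomain R] [Algebra k R] [Algebra.FiniteType k R]
    {deg : R → WithBot ℤ} (hd : IsDeg deg) (h0 : ∀ x, x ≠ 0 → 0 ≤ deg x)
    (hfd : ∀ n : ℕ, ∃ V : Submodule k R, FiniteDimensional k V ∧ ∀ x, deg x ≤ n → x ∈ V)
    (K : Type) [Field K] [Algebra R K] [IsFractionRing R K] : Den C R K := by
  have hn : IsNoetherianRing R := Algebra.FiniteType.isNoetherianRing k R
  have hjac : IsJacobsonRing R := isJacobsonRing_of_finiteType (A := k)
  refine den_of hC hsol K hd h0 fun h hh => ?_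
  obtain ⟨J, hJm, hJ⟩ : ∃ J : Ideal R, J.IsMaximal ∧ h ∉ J := by
    by_contra hcon
    push Not at hcon
    have h1 : (⊥ : Ideal R).jacobson = ⊥ := IsJacobsonRing.out hjac (Ideal.isRadical_bot)
    have h2 : h ∈ (⊥ : Ideal R).jacobson := by
      unfold Ideal.jacobson
      rw [Ideal.mem_sInf]
      intro J hJ
      exact hcon J hJ.2
    rw [h1, Ideal.mem_bot] at h2
    exact hh h2
  let _ : Field (R ⧸ J) := Ideal.Quotient.field J
  have hft : Algebra.FiniteType k (R ⧸ J) :=
    Algebra.FiniteType.of_surjective (Ideal.Quotient.mkₐ k J) (Ideal.Quotient.mkₐ_surjective k J)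
  have hfin : Module.Finite k (R ⧸ J) := finite_of_finite_type_of_isJacobsonRing k (R ⧸ J)
  let _ : Algebra ℚ (R ⧸ J) := ((algebraMap k (R ⧸ J)).comp (algebraMap ℚ k)).toAlgebra
  have : IsScalarTower ℚ k (R ⧸ J) := IsScalarTower.of_algebraMap_eq fun x => rfl
  have : Algebra.IsAlgebraic ℚ (R ⧸ J) := Algebra.IsAlgebraic.trans ℚ k (R ⧸ J)
  refine ⟨J, ?_, _root_.Run7.h31.PA.GL_alg hC hQ (R ⧸ J), fun n => ?_⟩
  · rw [isUnit_iff_ne_zero]
    intro e
    exact hJ (Ideal.Quotient.eq_zero_iff_mem.1 e)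
  · obtain ⟨V, hV, hVn⟩ := hfd n
    obtain ⟨m, hm⟩ := sep k V J hJm.ne_top
    exact ⟨m, fun x hx hx' => hm x hx (hVn x hx')⟩

end aff

end Pool.Agent.Run7.h390.RA
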