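import Pool.Agent.Run7.h390.RA.Base
import Pool.Agent.Run7.h31.PF.Stm

/-!
# The group of automorphisms of `R[y, z]` over `R`

Owner helper390.
-/

set_option autoImplicit false

namespace Pool.Agent.Run7.h390.RA

open MvPolynomial
open Pool.Agent.H922R2
open _root_.Run7.h31.PA (C_fix lin linHom lin_forms Rt ab_ker C_solv tri_solv TT act noinv tree_GA
  card_path fixA fixE descend rt_adjoin bc bc_X bc_inj bc0_mp mp mp_C mp_X)
open Pool.Agent.Y110.FJ (ClosedE)
open Pool.Agent.N509.TX (AcylF of_fg)
open Pool.Agent.R941.FJ (C_equiv C_le)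

variable {Cl : ∀ (G : Type) [Group G], Prop}

/-- the elements of `H` conjugate by `w` to affine automorphisms -/
noncomputable def VA {k : Type} [Field k] (H : Subgroup (GA k)) (w : GA k) : Subgroup H :=
  (AG k).comap ((MulAut.conj w⁻¹).toMonoidHom.comp H.subtype)

/-- finitely generated groups over fields with finitely many roots of unity -/
theorem tree_fg (hC : ClosedE Cl) (hM : ∀ (G : Type) [Group G], derivedSeries G 2 = ⊥ → Cl G)
    (hA : AcylF Cl) (k : Type) [Field k] [CharZero k] {n : ℕ} (hn : Rt k n) (H : Subgroup (GA k))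
    (hH : Group.FG H) (hv : ∀ w : GA k, Cl (VA H w)) : Cl H := by
  have hEG : Cl (EG k) := C_solv hC hM 3 _ tri_solv
  refine hA H ((GA k ⧸ AG k) ⊕ (GA k ⧸ EG k)) (TT (AG k) (EG k)) hH (tree_GA k)
    (fun g u v h => act (AG k) (EG k) (g : GA k) u v h)
    (fun g u v h => noinv (g : GA k) u v h) ⟨7, n, ?_⟩ ?_
  · intro u v p hp hl F hF
    have h1 := card_path hn p hp hl (F.map ⟨fun g : H => (g : GA k), Subtype.val_injective⟩) (by
      intro t ht x hx
      obtain ⟨g, hg, rfl⟩ := Finset.mem_map.1 ht
      exact hF g hg x hx)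
    rwa [Finset.card_map] at h1
  · rintro (v | v)
    · obtain ⟨w, rfl⟩ := QuotientGroup.mk_surjective v
      refine C_le hC.base (K := VA H w) ?_ (hv w)
      intro t ht
      have h1 := fixA (t := (t : GA k)) (g := w) ht
      show w⁻¹ * (t : GA k) * w⁻¹⁻¹ ∈ AG k
      rw [inv_inv]
      exact h1
    · obtain ⟨w, rfl⟩ := QuotientGroup.mk_surjective v
      refine hC.base.of_injective _ (EG k)
        ((((MulAut.conj w⁻¹).toMonoidHom).comp (H.subtype.comp (Subgroup.subtype _))).codRestrict
          (EG k) ?_) ?_ hEG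
      · rintro ⟨t, ht⟩
        have h1 := fixE (t := (t : GA k)) (g := w) ht
        show w⁻¹ * (t : GA k) * w⁻¹⁻¹ ∈ EG k
        rw [inv_inv]
        exact h1
      · intro a b hab
        have h1 := congrArg Subtype.val hab
        exact Subtype.ext (Subtype.ext ((MulAut.conj w⁻¹).injective h1))

/-- the affine part -/
noncomputable def af {k : Type} [Field k] (H : Subgroup (GA k)) (w : GA k) : VA H w →* AG k :=
  (((MulAut.conj w⁻¹).toMonoidHom).comp (H.subtype.comp (Subgroup.subtype _))).codRestrict (AG k)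
    fun t => t.2

theorem af_val {k : Type} [Field k] (H : Subgroup (GA k)) (w : GA k) (t : VA H w) :
    (af H w t : GA k) = w⁻¹ * ((t : H) : GA k) * w := by
  show w⁻¹ * ((t : H) : GA k) * w⁻¹⁻¹ = _
  rw [inv_inv]

theorem af_inj {k : Type} [Field k] (H : Subgroup (GA k)) (w : GA k) :
    Function.Injective (af H w) := by
  intro a b hab
  have h1 := congrArg Subtype.val hab
  exact Subtype.ext (Subtype.ext ((MulAut.conj w⁻¹).injective h1))

/-- translations commute -/
theorem lin_comm {k : Type} [Field k] [CharZero k] (x y : AG k)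
    (hx : (linHom (k := k)).toHomUnits x = 1) (hy : (linHom (k := k)).toHomUnits y = 1) :
    x * y = y * x := by
  have key : ∀ x : AG k, (linHom (k := k)).toHomUnits x = 1 →
      ∀ i, ∃ c : k, (x : GA k) (X i) = X i + C c := by
    intro x hx i
    have h1 : lin (x : GA k) = 1 := congrArg (fun u : (Matrix (Fin 2) (Fin 2) k)ˣ =>
      (u : Matrix (Fin 2) (Fin 2) k)) hx
    obtain ⟨c, hc⟩ := lin_forms x.2 i
    refine ⟨c, ?_⟩
    rw [hc, h1]
    fin_cases i
    · rw [Matrix.one_apply, Matrix.one_apply]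
      simp
    · rw [Matrix.one_apply, Matrix.one_apply]
      simp
  apply Subtype.ext
  obtain ⟨a, ha⟩ := key x hx 0
  obtain ⟨b, hb⟩ := key x hx 1
  obtain ⟨a', ha'⟩ := key y hy 0
  obtain ⟨b', hb'⟩ := key y hy 1
  refine ga_ext ?_ ?_
  · show (x : GA k) ((y : GA k) (X 0)) = (y : GA k) ((x : GA k) (X 0))
    rw [ha, ha', map_add, map_add, C_fix, C_fix, ha, ha']
    ring
  · show (x : GA k) ((y : GA k) (X 1)) = (y : GA k) ((x : GA k) (X 1))
    rw [hb, hb', map_add, map_add, C_fix, C_fix, hb, hb']
    ring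

/-- the groups of matrices over `K` with a common denominator -/
def Den (Cl : ∀ (G : Type) [Group G], Prop) (R K : Type) [CommRing R] [Field K] [Algebra R K] :
    Prop :=
  ∀ h : R, h ≠ 0 → ∀ (Q : Type) [Group Q] (ρ : Q →* GL (Fin 2) K), Function.Injective ρ →
    (∀ (q : Q) (i j : Fin 2), ∃ a : R, algebraMap R K h * ρ q i j = algebraMap R K a) → Cl Q

theorem main (hC : ClosedE Cl) (hM : ∀ (G : Type) [Group G], derivedSeries G 2 = ⊥ → Cl G)
    (hA : AcylF Cl) (R K : Type) [CommRing R] [IsDomain R] [Field K] [CharZero K] [Algebra R K]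
    [IsFractionRing R K] (hD : Den Cl R K) : Cl (GR R) := by
  classical
  have hinj : Function.Injective (algebraMap R K) := IsFractionRing.injective R K
  have hbr := br_inj (R := R) (K := K) hinj
  refine of_fg hC fun H hH => ?_
  obtain ⟨S, hS⟩ := (Group.fg_iff_subgroup_fg H).1 hH
  obtain ⟨T, hT⟩ : ∃ T : Set K, T = ⋃ φ ∈ S, ⋃ i : Fin 2,
      (((br R K φ (X i)).coeffs : Set K) ∪ (((br R K φ).symm (X i)).coeffs : Set K)) := ⟨_, rfl⟩
  have hTfin : T.Finite := by
    rw [hT]
    refine S.finite_toSet.biUnion fun φ _ => ?_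
    refine Set.finite_iUnion fun i => ?_
    exact (Finset.finite_toSet _).union (Finset.finite_toSet _)
  obtain ⟨n, hn⟩ := rt_adjoin T hTfin _ rfl
  obtain ⟨L, hL⟩ : ∃ L : IntermediateField ℚ K, L = IntermediateField.adjoin ℚ T := ⟨_, rfl⟩
  rw [← hL] at hn
  have h2 : H.map (br R K) ≤ (bc L K).range := by
    rw [← hS, MonoidHom.map_closure, Subgroup.closure_le]
    rintro _ ⟨φ, hφ, rfl⟩
    apply descend
    intro i
    have h3 : ∀ p : MvPolynomial (Fin 2) K, (p.coeffs : Set K) ⊆ T → p ∈ Set.range (mp L K) := by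
      intro p hp
      unfold mp
      rw [mem_range_map_iff_coeffs_subset]
      intro x hx
      exact ⟨⟨x, by rw [hL]; exact IntermediateField.subset_adjoin ℚ T (hp hx)⟩, rfl⟩
    constructor
    · apply h3
      rw [hT]
      intro x hx
      simp only [Set.mem_iUnion]
      exact ⟨φ, hφ, i, Or.inl hx⟩
    · apply h3
      rw [hT]
      intro x hx
      simp only [Set.mem_iUnion]
      exact ⟨φ, hφ, i, Or.inr hx⟩
  have hbc : Function.Injective (bc L K) := bc_inj
  -- the descended group
  obtain ⟨j, hj⟩ : ∃ j : H →* GA L, ∀ φ : H, bc L K (j φ) = br R K φ := by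
    refine ⟨(MonoidHom.ofInjective hbc).symm.toMonoidHom.comp
      (((br R K).comp H.subtype).codRestrict (bc L K).range fun φ => h2 ⟨φ, φ.2, rfl⟩), fun φ => ?_⟩
    have h3 := MulEquiv.apply_symm_apply (MonoidHom.ofInjective hbc)
      ((((br R K).comp H.subtype).codRestrict (bc L K).range fun φ => h2 ⟨φ, φ.2, rfl⟩) φ)
    exact congrArg Subtype.val h3
  have hji : Function.Injective j := by
    intro a b hab
    apply Subtype.ext
    apply hbr
    rw [← hj, ← hj, hab]
  refine hC.base.of_injective _ _ j.rangeRestrict ?_ ?_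
  · intro a b hab
    exact hji (congrArg Subtype.val hab)
  have hfg : Group.FG j.range := by
    have : Group.FG H := hH
    exact Group.fg_of_surjective (f := j.rangeRestrict) j.rangeRestrict_surjective
  refine tree_fg hC hM hA L hn j.range hfg fun w => ?_
  -- the stabilizers of affine type
  obtain ⟨f, hf⟩ : ∃ f : VA j.range w →* GL (Fin 2) L,
      f = ((linHom (k := L)).toHomUnits).comp (af j.range w) := ⟨_, rfl⟩
  refine ab_ker hC hM (Q := f.range) f.rangeRestrict ?_ ?_
  · intro x y hx hy
    have hx' : f x = 1 := congrArg Subtype.val hx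
    have hy' : f y = 1 := congrArg Subtype.val hy
    rw [hf] at hx' hy'
    apply af_inj
    rw [map_mul, map_mul]
    exact lin_comm _ _ hx' hy'
  · obtain ⟨D, hD0, hDD⟩ := denom (R := R) (bc L K w)
    have hmi : Function.Injective (Matrix.GeneralLinearGroup.map (n := Fin 2) (algebraMap L K)) := by
      intro a b hab
      apply Units.ext
      ext i j
      have h1 := congrArg (fun u : GL (Fin 2) K => (u : Matrix (Fin 2) (Fin 2) K) i j) hab
      exact h1
    refine hD D hD0 f.range
      ((Matrix.GeneralLinearGroup.map (n := Fin 2) (algebraMap L K)).comp f.range.subtype)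
      (fun a b hab => Subtype.ext (hmi hab)) ?_
    rintro ⟨_, t, rfl⟩ i i'
    obtain ⟨φ, hφ⟩ := (t : j.range).2
    obtain ⟨l, hl⟩ : ∃ l : Fin 2 → Fin 2 → L,
        ∀ a b, l a b = lin ((af j.range w t : AG L) : GA L) a b := ⟨_, fun _ _ => rfl⟩
    have hent : ∀ a b, ((Matrix.GeneralLinearGroup.map (n := Fin 2) (algebraMap L K)) (f t)) a b =
        algebraMap L K (l a b) := by
      intro a b
      rw [hf, hl]
      rfl
    obtain ⟨c, hc⟩ : ∃ c : Fin 2 → L, ∀ i, ((af j.range w t : AG L) : GA L) (X i) =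
        C (l 0 i) * X 0 + C (l 1 i) * X 1 + C (c i) := by
      choose c hc using fun i => lin_forms (af j.range w t).2 i
      refine ⟨c, fun i => ?_⟩
      rw [hl, hl]
      exact hc i
    have hbcmp : ∀ (θ : GA L) (p : MvPolynomial (Fin 2) L), bc L K θ (mp L K p) = mp L K (θ p) :=
      fun θ p => bc0_mp θ p
    obtain ⟨a, ha⟩ := hDD φ (fun a b => algebraMap L K (l a b))
      (fun i => algebraMap L K (c i)) (fun i => by
        have h3 : ((t : j.range) : GA L) * w = w * ((af j.range w t : AG L) : GA L) := by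
          rw [af_val]
          group
        have h4 : ((t : j.range) : GA L) (w (X i)) = w (((af j.range w t : AG L) : GA L) (X i)) :=
          congrArg (fun g : GA L => g (X i)) h3
        rw [hc, ← hφ] at h4
        have h6 : bc L K (j φ) (mp L K (w (X i))) = bc L K w (mp L K
            (C (l 0 i) * X 0 + C (l 1 i) * X 1 + C (c i))) := by
          rw [hbcmp, hbcmp, h4]
        have h7 : mp L K (C (l 0 i) * X 0 + C (l 1 i) * X 1 + C (c i)) =
            C (algebraMap L K (l 0 i)) * X 0 + C (algebraMap L K (l 1 i)) * X 1 +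
              C (algebraMap L K (c i)) := by
          rw [map_add, map_add, map_mul, map_mul, mp_C, mp_C, mp_C, mp_X, mp_X]
        rw [hj, h7, map_add, map_add, map_mul, map_mul, C_fix, C_fix, C_fix, ← bc_X] at h6
        exact h6) i i'
    exact ⟨a, by rw [← ha]; exact congrArg _ (hent i i')⟩

end Pool.Agent.Run7.h390.RA
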